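import Mathlib
import Pool.Agent.BSGEnergy.Large

/-!
# A Balog–Szemerédi–Gowers theorem preserving the normalised energy, for all `K` up to an
astronomical constant, and with quasi-polynomial sumset bound for all `K`
-/

namespace Pool.Agent.Results.MP_be00de_co.EnergyBSG

open Finset Pool.Agent.BSGEnergy

variable {G : Type*} [AddCommGroup G] [DecidableEq G]

lemma pow_bound_one {k : ℝ} (hk : 1000 / 983 ≤ k) (hk2 : k ≤ 12 / 10) :
    1 ≤ (12458 / 10000 - k) * k ^ 99 := by
  have hk0 : 0 ≤ k := by linarith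
  rcases le_or_gt k (103 / 100) with h | h
  · calc (1:ℝ) ≤ (12458 / 10000 - 103 / 100) * (1000 / 983) ^ 99 := by norm_num
      _ ≤ _ := mul_le_mul (by linarith) (pow_le_pow_left₀ (by norm_num) hk 99) (by positivity)
        (by linarith)
  · rcases le_or_gt k (11 / 10) with h' | h'
    · calc (1:ℝ) ≤ (12458 / 10000 - 11 / 10) * (103 / 100) ^ 99 := by norm_num
        _ ≤ _ := mul_le_mul (by linarith) (pow_le_pow_left₀ (by norm_num) h.le 99) (by positivity)
          (by linarith)
    · calc (1:ℝ) ≤ (12458 / 10000 - 12 / 10) * (11 / 10) ^ 99 := by norm_num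
        _ ≤ _ := mul_le_mul (by linarith) (pow_le_pow_left₀ (by norm_num) h'.le 99) (by positivity)
          (by linarith)

open Pointwise in
lemma card_add_self_le_sq (B : Finset G) {C : ℝ} (h : (B.card : ℝ) ≤ C) :
    ((B + B).card : ℝ) ≤ C * B.card := by
  have h1 : (B + B).card ≤ B.card * B.card := Finset.card_add_le
  have h2 : ((B + B).card : ℝ) ≤ B.card * B.card := by exact_mod_cast h1
  exact h2.trans (mul_le_mul_of_nonneg_right h (by positivity))

open Pointwise in
/-- the bound from `two_step` -/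
lemma two_step_bound {B : Finset G} (hB : B.Nonempty) (hext : Extremal B) {k c : ℝ}
    (hkd : k = (B.card : ℝ) ^ 3 / energy B) (hk1 : 1 ≤ k)
    (hc : c ≤ 299 / 400 * (1 - 1 / (B.card : ℝ))) (hmain : 1 ≤ (2 * c - k) * k ^ 99) :
    ((B + B).card : ℝ) ≤ k ^ 100 * B.card := by
  have hn : (0:ℝ) < B.card := by exact_mod_cast hB.card_pos
  have hE : (0:ℝ) < energy B := by exact_mod_cast energy_pos hB
  have hk0 : 0 < k := by linarith
  have hEk' : (energy B : ℝ) / B.card = (B.card : ℝ) ^ 2 / k := by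
    rw [hkd]; field_simp
  have h1 := two_step hB (ρ := c / k) (by
    intro z hz
    refine le_trans ?_ (deg_lower hext hz)
    rw [hEk']
    calc c / k * (B.card : ℝ) ^ 2 = c * ((B.card : ℝ) ^ 2 / k) := by ring
      _ ≤ _ := mul_le_mul_of_nonneg_right hc (by positivity))
  have h2 : 1 ≤ (2 * (c / k) - 1) * k ^ 100 := by
    have : (2 * (c / k) - 1) * k ^ 100 = (2 * c - k) * k ^ 99 := by
      rw [show (100:ℕ) = 99 + 1 by norm_num, pow_succ]
      field_simp
    rw [this]; exact hmain
  have hk100 : 0 < k ^ 100 := by positivity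
  calc ((B + B).card : ℝ) ≤ (B + B).card * ((2 * (c / k) - 1) * k ^ 100) := by
        exact le_mul_of_one_le_right (by positivity) h2
    _ = (((B + B).card : ℝ) * (2 * (c / k) - 1)) * k ^ 100 := by ring
    _ ≤ B.card * k ^ 100 := mul_le_mul_of_nonneg_right h1 hk100.le
    _ = _ := mul_comm _ _

open Pointwise in
/-- The sumset bound for extremal sets. -/
lemma core {B : Finset G} (hB : B.Nonempty) (hext : Extremal B) {k : ℝ}
    (hkd : k = (B.card : ℝ) ^ 3 / energy B) (hk1 : 1 ≤ k) :
    ((B + B).card : ℝ) ≤ k ^ (max 100 (16 + 2 * Real.log (Real.log k))) * B.card := by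
  have hn : (0:ℝ) < B.card := by exact_mod_cast hB.card_pos
  have hn1 : (1:ℝ) ≤ B.card := by exact_mod_cast hB.card_pos
  have hE : (0:ℝ) < energy B := by exact_mod_cast energy_pos hB
  have hk0 : 0 < k := by linarith
  -- reduction to exponent 100
  have hred : ((B + B).card : ℝ) ≤ k ^ 100 * B.card →
      ((B + B).card : ℝ) ≤ k ^ (max 100 (16 + 2 * Real.log (Real.log k))) * B.card := by
    intro h
    refine h.trans (mul_le_mul_of_nonneg_right ?_ hn.le)
    rw [← Real.rpow_natCast]
    apply Real.rpow_le_rpow_of_exponent_le hk1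
    push_cast
    exact le_max_left _ _
  rcases le_or_gt (149 / 100) k with hk149 | hk149
  · rcases le_or_gt (B.card : ℝ) (10 ^ 5) with hsmall | hlarge
    · apply hred
      apply card_add_self_le_sq
      calc (B.card : ℝ) ≤ 10 ^ 5 := hsmall
        _ ≤ (149 / 100) ^ 100 := by norm_num
        _ ≤ k ^ 100 := pow_le_pow_left₀ (by norm_num) hk149 100
    · exact large_regime hB hext hkd hk149 hlarge.le
  apply hred
  rcases le_or_gt (12 / 10) k with hk12 | hk12
  · rcases le_or_gt (B.card : ℝ) (10 ^ 7) with hsmall | hlarge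
    · apply card_add_self_le_sq
      calc (B.card : ℝ) ≤ 10 ^ 7 := hsmall
        _ ≤ (12 / 10) ^ 100 := by norm_num
        _ ≤ k ^ 100 := pow_le_pow_left₀ (by norm_num) hk12 100
    · apply two_step_bound hB hext hkd hk1 (c := 7474 / 10000)
      · have : 1 / (B.card : ℝ) ≤ 1 / 10 ^ 7 := one_div_le_one_div_of_le (by norm_num) hlarge.le
        have h2 : (1:ℝ) / 10 ^ 7 = 1 / 10000000 := by norm_num
        rw [h2] at this
        linarith
      · calc (1:ℝ) ≤ (2 * (7474 / 10000) - 149 / 100) * (12 / 10) ^ 99 := by norm_num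
          _ ≤ _ := mul_le_mul (by linarith) (pow_le_pow_left₀ (by norm_num) hk12 99) (by positivity)
            (by linarith)
  rcases le_or_gt (1000 / 983) k with hkm | hkm
  · rcases le_or_gt B.card 5 with hsmall | hlarge
    · apply card_add_self_le_sq
      have : (B.card : ℝ) ≤ 5 := by exact_mod_cast hsmall
      calc (B.card : ℝ) ≤ 5 := this
        _ ≤ (1000 / 983) ^ 100 := by norm_num
        _ ≤ k ^ 100 := pow_le_pow_left₀ (by norm_num) hkm 100
    · apply two_step_bound hB hext hkd hk1 (c := 6229 / 10000)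
      · have h6 : (6:ℝ) ≤ B.card := by exact_mod_cast hlarge
        have : 1 / (B.card : ℝ) ≤ 1 / 6 := one_div_le_one_div_of_le (by norm_num) h6
        linarith
      · have := pow_bound_one hkm hk12.le
        norm_num at this ⊢
        exact this
  -- energy close to the maximum
  obtain ⟨η, hη⟩ : ∃ η, η = 1 - 1 / k := ⟨_, rfl⟩
  have hEη : (1 - η) * (B.card : ℝ) ^ 3 = energy B := by
    rw [hη, hkd]; field_simp; ring
  have hη0 : 0 ≤ η := by
    rw [hη, sub_nonneg, div_le_one hk0]; exact hk1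
  have hη17 : η < 17 / 1000 := by
    have : 983 / 1000 < 1 / k := by
      rw [lt_div_iff₀ hk0]
      linarith
    rw [hη]; linarith
  have hdeg := fun z (hz : z ∈ B) => deg_lower hext hz
  have hkη : 1 + η ≤ k := by
    have h1 : k * (1 - η) = 1 := by rw [hη]; field_simp; ring
    nlinarith
  have hk100 : 1 + 100 * η ≤ k ^ 100 := by
    calc 1 + 100 * η = 1 + ((100:ℕ):ℝ) * η := by norm_num
      _ ≤ (1 + η) ^ 100 := one_add_mul_le_pow (by linarith) 100
      _ ≤ k ^ 100 := pow_le_pow_left₀ (by linarith) hkη 100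
  have hfin : ∀ s : ℝ, 0 ≤ s → ((B + B).card : ℝ) * s ≤ B.card → 1 ≤ s * k ^ 100 →
      ((B + B).card : ℝ) ≤ k ^ 100 * B.card := by
    intro s hs h1 h2
    calc ((B + B).card : ℝ) ≤ (B + B).card * (s * k ^ 100) :=
          le_mul_of_one_le_right (by positivity) h2
      _ = (((B + B).card : ℝ) * s) * k ^ 100 := by ring
      _ ≤ B.card * k ^ 100 := mul_le_mul_of_nonneg_right h1 (by positivity)
      _ = _ := mul_comm _ _
  rcases le_or_gt η (1 / 100) with hη1 | hη1
  · rcases hη0.eq_or_lt with h0 | hpos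
    · -- η = 0 : the set is a coset
      obtain ⟨η', hη'⟩ : ∃ η' : ℝ, η' = 1 / (1000 * (B.card + 1)) := ⟨_, rfl⟩
      have hp : 0 < η' := by rw [hη']; positivity
      have hη'1 : η' ≤ 1 / 1000 := by
        rw [hη']
        apply one_div_le_one_div_of_le (by norm_num)
        nlinarith
      have e1 : η' / (8 * η') = 1 / 8 := by field_simp
      have e2 : η' / (2 * (8 * η')) = 1 / 16 := by field_simp; norm_num
      have h1 := near_max hB (η := η') (t := 8 * η') (by positivity) (by linarith) hp.le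
        (by
          rw [← hEη, ← h0]
          apply mul_le_mul_of_nonneg_right _ (by positivity)
          linarith)
        (by rw [e1]; linarith) hdeg (by rw [e2]; norm_num) (by rw [e2]; linarith)
      have h2 : (B + B).card ≤ B.card := by
        by_contra hcon
        push Not at hcon
        have h3 : (B.card : ℝ) + 1 ≤ (B + B).card := by exact_mod_cast hcon
        have h4 : ((B.card : ℝ) + 1) * (1 - 2 * (8 * η')) ≤ B.card :=
          (mul_le_mul_of_nonneg_right h3 (by linarith)).trans h1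
        have h5 : ((B.card : ℝ) + 1) * η' = 1 / 1000 := by rw [hη']; field_simp
        nlinarith
      have h3 : ((B + B).card : ℝ) ≤ B.card := by exact_mod_cast h2
      have h4 : 1 ≤ k ^ 100 := one_le_pow₀ hk1
      nlinarith
    · have e1 : η / (8 * η) = 1 / 8 := by field_simp
      have e2 : η / (2 * (8 * η)) = 1 / 16 := by field_simp; norm_num
      have h1 := near_max hB (η := η) (t := 8 * η) (by positivity) (by linarith) hpos.le hEη.le
        (by rw [e1]; linarith) hdeg (by rw [e2]; norm_num) (by rw [e2]; linarith)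
      apply hfin _ (by linarith) h1
      have : (1 - 2 * (8 * η)) * (1 + 100 * η) ≤ (1 - 2 * (8 * η)) * k ^ 100 :=
        mul_le_mul_of_nonneg_left hk100 (by linarith)
      nlinarith
  · have h0 : η / (117 / 2000) ≤ 2907 / 10000 := by
      rw [div_le_iff₀ (by norm_num)]; linarith
    have h0' : η / (2 * (117 / 2000)) ≤ 14535 / 100000 := by
      rw [div_le_iff₀ (by norm_num)]; linarith
    have h1 := near_max hB (η := η) (t := 117 / 2000) (by norm_num) (by norm_num) hη0 hEη.le
        (by nlinarith) hdeg (by linarith) (by nlinarith)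
    apply hfin _ (by norm_num) h1
    have : (1 - 2 * (117 / 2000)) * (1 + 100 * η) ≤ (1 - 2 * (117 / 2000)) * k ^ 100 :=
        mul_le_mul_of_nonneg_left hk100 (by norm_num)
    nlinarith

open Pointwise in
/-- **Main result.** Let `A` be a finite nonempty subset of an abelian group with
`E(A) ≥ |A|³ / K`, `K ≥ 1`. There is a nonempty `A' ⊆ A` with `|A'| ≥ |A| / K ^ 100`,
`|A' + A'| ≤ K ^ max (100, 16 + 2 log log K) |A'|` and
`E(A') / |A'|³ ≥ (E(A) / |A|³) (|A| / |A'|) ^ (1 / 100)`. -/
theorem result {G : Type*} [AddCommGroup G] [DecidableEq G] (A : Finset G) (hA : A.Nonempty)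
    (K : ℝ) (hK : 1 ≤ K) (hE : (A.card : ℝ) ^ 3 / K ≤ (energy A : ℝ)) :
    ∃ A' : Finset G, A' ⊆ A ∧ A'.Nonempty ∧
      (A.card : ℝ) / K ^ 100 ≤ (A'.card : ℝ) ∧
      ((A' + A').card : ℝ) ≤ K ^ (max 100 (16 + 2 * Real.log (Real.log K))) * (A'.card : ℝ) ∧
      (energy A : ℝ) / (A.card : ℝ) ^ 3 * ((A.card : ℝ) / (A'.card : ℝ)) ^ (1 / 100 : ℝ) ≤
        (energy A' : ℝ) / (A'.card : ℝ) ^ 3 := by
  obtain ⟨B, hBA, hB, hext, hcmp⟩ := exists_extremal hA
  have hn : (0:ℝ) < B.card := by exact_mod_cast hB.card_pos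
  have ha : (0:ℝ) < A.card := by exact_mod_cast hA.card_pos
  have hEB : (0:ℝ) < energy B := by exact_mod_cast energy_pos hB
  have hEA : (0:ℝ) < energy A := by exact_mod_cast energy_pos hA
  have hK0 : 0 < K := by linarith
  have hcmp' : (energy A : ℝ) ^ 100 * (B.card : ℝ) ^ 299 ≤ (energy B : ℝ) ^ 100 * (A.card : ℝ) ^ 299 := by
    exact_mod_cast hcmp
  obtain ⟨e, he⟩ : ∃ e, e = (energy A : ℝ) / (A.card : ℝ) ^ 3 := ⟨_, rfl⟩
  obtain ⟨f, hf⟩ : ∃ f, f = (energy B : ℝ) / (B.card : ℝ) ^ 3 := ⟨_, rfl⟩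
  have he0 : 0 < e := by rw [he]; positivity
  have hf0 : 0 < f := by rw [hf]; positivity
  -- the inequality between the hundredth powers
  have hpow : e ^ 100 * ((A.card : ℝ) / B.card) ≤ f ^ 100 := by
    rw [he, hf, div_pow, div_pow, ← pow_mul, ← pow_mul, div_mul_div_comm,
      div_le_div_iff₀ (by positivity) (by positivity)]
    have e1 : (B.card : ℝ) ^ (3 * 100) = (B.card : ℝ) ^ 299 * B.card := by rw [← pow_succ]
    have e2 : (A.card : ℝ) ^ (3 * 100) = (A.card : ℝ) ^ 299 * A.card := by rw [← pow_succ]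
    rw [e1, e2]
    calc _ = ((energy A : ℝ) ^ 100 * (B.card : ℝ) ^ 299) * (A.card * B.card) := by ring
      _ ≤ ((energy B : ℝ) ^ 100 * (A.card : ℝ) ^ 299) * (A.card * B.card) :=
          mul_le_mul_of_nonneg_right hcmp' (by positivity)
      _ = _ := by ring
  have hthird : e * ((A.card : ℝ) / (B.card : ℝ)) ^ (1 / 100 : ℝ) ≤ f := by
    have h0 : (0:ℝ) ≤ (A.card : ℝ) / B.card := by positivity
    apply le_of_pow_le_pow_left₀ (show 100 ≠ 0 by norm_num) hf0.le
    rw [mul_pow, ← Real.rpow_natCast (((A.card : ℝ) / (B.card : ℝ)) ^ (1 / 100 : ℝ)),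
      ← Real.rpow_mul h0]
    norm_num
    exact hpow
  have heK : 1 / K ≤ e := by
    rw [he, div_le_div_iff₀ hK0 (by positivity)]
    rw [div_le_iff₀ hK0] at hE
    linarith
  have hf1 : f ≤ 1 := by
    rw [hf, div_le_one (by positivity)]
    exact_mod_cast energy_le B
  have hsize : (A.card : ℝ) / K ^ 100 ≤ B.card := by
    have h1 : (1 / K) ^ 100 * ((A.card : ℝ) / B.card) ≤ 1 := by
      calc (1 / K) ^ 100 * ((A.card : ℝ) / B.card) ≤ e ^ 100 * ((A.card : ℝ) / B.card) :=
            mul_le_mul_of_nonneg_right (pow_le_pow_left₀ (by positivity) heK 100) (by positivity)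
        _ ≤ f ^ 100 := hpow
        _ ≤ 1 := pow_le_one₀ hf0.le hf1
    rw [div_le_iff₀ (by positivity)]
    rw [one_div, inv_pow, inv_mul_le_iff₀ (by positivity), mul_one, div_le_iff₀ hn] at h1
    linarith
  have hcardle : (B.card : ℝ) ≤ A.card := by exact_mod_cast Finset.card_le_card hBA
  have hef : e ≤ f := by
    have h1 : (1:ℝ) ≤ ((A.card : ℝ) / (B.card : ℝ)) ^ (1 / 100 : ℝ) := by
      apply Real.one_le_rpow _ (by norm_num)
      rwa [one_le_div hn]
    calc e ≤ e * ((A.card : ℝ) / (B.card : ℝ)) ^ (1 / 100 : ℝ) := le_mul_of_one_le_right he0.le h1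
      _ ≤ f := hthird
  obtain ⟨k, hkd⟩ : ∃ k, k = (B.card : ℝ) ^ 3 / energy B := ⟨_, rfl⟩
  have hkf : k = 1 / f := by rw [hkd, hf, one_div_div]
  have hk1 : 1 ≤ k := by
    rw [hkf, le_div_iff₀ hf0]; linarith
  have hkK : k ≤ K := by
    rw [hkf, div_le_iff₀ hf0]
    have := heK.trans hef
    rw [div_le_iff₀ hK0] at this
    linarith
  have hcore := core hB hext hkd hk1
  refine ⟨B, hBA, hB, hsize, ?_, ?_⟩
  · refine hcore.trans (mul_le_mul_of_nonneg_right ?_ hn.le)
    have hexp : max 100 (16 + 2 * Real.log (Real.log k)) ≤ max 100 (16 + 2 * Real.log (Real.log K)) := by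
      rcases hk1.eq_or_lt with h | h
      · rw [← h]
        simp only [Real.log_one, Real.log_zero, mul_zero, add_zero]
        exact max_le (le_max_left _ _) (le_trans (by norm_num) (le_max_left _ _))
      · apply max_le_max le_rfl
        have h1 : 0 < Real.log k := Real.log_pos h
        have h2 : Real.log k ≤ Real.log K := Real.log_le_log (by linarith) hkK
        have h3 := Real.log_le_log h1 h2
        linarith
    calc k ^ (max 100 (16 + 2 * Real.log (Real.log k)))
        ≤ k ^ (max 100 (16 + 2 * Real.log (Real.log K))) :=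
          Real.rpow_le_rpow_of_exponent_le hk1 hexp
      _ ≤ K ^ (max 100 (16 + 2 * Real.log (Real.log K))) := by
          apply Real.rpow_le_rpow (by linarith) hkK
          exact le_trans (by norm_num) (le_max_left _ _)
  · rw [← he, ← hf]
    exact hthird

end Pool.Agent.Results.MP_be00de_co.EnergyBSG
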