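import Mathlib
import Pool.Agent.BSGLoss.Final
import Pool.Agent.BSGX2.CoreCopy

/-!
# Balog–Szemerédi–Gowers for all `K` and all abelian groups, preserving the normalised energy up to
an arbitrarily small power of `K`
-/

namespace Pool.Agent.Results.MP_be00de_co.EnergyLoss

open Finset Pool.Agent.BSGEnergy Pool.Agent.BSGLoss

open Pointwise in
/-- **Main result.** Let `A` be a finite nonempty subset of an abelian group with
`E(A) ≥ |A|³ / K`, `K ≥ 1`, and let `T ≥ 100`. There is a nonempty `A' ⊆ A` with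
`|A'| ≥ |A| / K ^ 100`, `|A' + A'| ≤ K ^ T |A'|` and, for every nonempty `X ⊆ A`,
`E(A') / |A'|³ ≥ K ^ (- exp (-(T - 22) / 6)) (E(X) / |X|³) (|X| / |A'|) ^ (1 / 100)`. -/
theorem result {G : Type*} [AddCommGroup G] [DecidableEq G] (A : Finset G) (hA : A.Nonempty)
    (K : ℝ) (hK : 1 ≤ K) (hE : (A.card : ℝ) ^ 3 / K ≤ (energy A : ℝ)) (T : ℝ) (hT : 100 ≤ T) :
    ∃ A' : Finset G, A' ⊆ A ∧ A'.Nonempty ∧
      (A.card : ℝ) / K ^ 100 ≤ (A'.card : ℝ) ∧
      ((A' + A').card : ℝ) ≤ K ^ T * (A'.card : ℝ) ∧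
      ∀ X : Finset G, X ⊆ A → X.Nonempty →
        K ^ (-Real.exp (-((T - 22) / 6))) *
          ((energy X : ℝ) / (X.card : ℝ) ^ 3 * ((X.card : ℝ) / (A'.card : ℝ)) ^ (1 / 100 : ℝ)) ≤
        (energy A' : ℝ) / (A'.card : ℝ) ^ 3 := by
  obtain ⟨B, hBA, hB, hmax⟩ := exists_max hA
  have hext : Extremal B := fun X hX => hmax X (hX.trans hBA)
  have hn : (0:ℝ) < B.card := by exact_mod_cast hB.card_pos
  have ha : (0:ℝ) < A.card := by exact_mod_cast hA.card_pos
  have hEB : (0:ℝ) < energy B := by exact_mod_cast energy_pos hB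
  have hEA : (0:ℝ) < energy A := by exact_mod_cast energy_pos hA
  have hK0 : 0 < K := by linarith
  obtain ⟨η, hη⟩ : ∃ η, η = Real.exp (-((T - 22) / 6)) := ⟨_, rfl⟩
  have hη0 : 0 < η := by rw [hη]; exact Real.exp_pos _
  rw [← hη]
  obtain ⟨e, he⟩ : ∃ e, e = (energy A : ℝ) / (A.card : ℝ) ^ 3 := ⟨_, rfl⟩
  obtain ⟨f, hf⟩ : ∃ f, f = (energy B : ℝ) / (B.card : ℝ) ^ 3 := ⟨_, rfl⟩
  have he0 : 0 < e := by rw [he]; positivity
  have hf0 : 0 < f := by rw [hf]; positivity
  have hthird := third hA hB (hmax A subset_rfl)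
  rw [← he, ← hf] at hthird
  have heK : 1 / K ≤ e := by
    rw [he, div_le_div_iff₀ hK0 (by positivity)]
    rw [div_le_iff₀ hK0] at hE
    linarith
  have hf1 : f ≤ 1 := by
    rw [hf, div_le_one (by positivity)]
    exact_mod_cast energy_le B
  have hcardle : (B.card : ℝ) ≤ A.card := by exact_mod_cast Finset.card_le_card hBA
  have hef : e ≤ f := by
    have h1 : (1:ℝ) ≤ ((A.card : ℝ) / (B.card : ℝ)) ^ (1 / 100 : ℝ) := by
      apply Real.one_le_rpow _ (by norm_num)
      rwa [one_le_div hn]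
    calc e ≤ e * ((A.card : ℝ) / (B.card : ℝ)) ^ (1 / 100 : ℝ) := le_mul_of_one_le_right he0.le h1
      _ ≤ f := hthird
  obtain ⟨k, hkd⟩ : ∃ k, k = (B.card : ℝ) ^ 3 / energy B := ⟨_, rfl⟩
  have hkf : k = 1 / f := by rw [hkd, hf, one_div_div]
  have hk1 : 1 ≤ k := by
    rw [hkf, le_div_iff₀ hf0]; linarith
  have hk0 : 0 < k := by linarith
  have hkK : k ≤ K := by
    rw [hkf, div_le_iff₀ hf0]
    have := heK.trans hef
    rw [div_le_iff₀ hK0] at this
    linarith
  -- the size of the maximiser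
  have hsize : (A.card : ℝ) / K ^ 100 * k ^ 100 ≤ B.card := by
    have hpow : e ^ 100 * ((A.card : ℝ) / B.card) ≤ f ^ 100 := by
      have h0 : (0:ℝ) ≤ (A.card : ℝ) / B.card := by positivity
      have h1 := pow_le_pow_left₀ (by positivity) hthird 100
      rw [mul_pow, ← Real.rpow_natCast (((A.card : ℝ) / (B.card : ℝ)) ^ (1 / 100 : ℝ)),
        ← Real.rpow_mul h0] at h1
      norm_num at h1
      exact h1
    have h1 : (1 / K) ^ 100 * ((A.card : ℝ) / B.card) ≤ f ^ 100 := by
      calc (1 / K) ^ 100 * ((A.card : ℝ) / B.card) ≤ e ^ 100 * ((A.card : ℝ) / B.card) :=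
            mul_le_mul_of_nonneg_right (pow_le_pow_left₀ (by positivity) heK 100) (by positivity)
        _ ≤ f ^ 100 := hpow
    have h2 : (1 / K) ^ 100 * ((A.card : ℝ) / B.card) * k ^ 100 ≤ 1 := by
      calc _ ≤ f ^ 100 * k ^ 100 := mul_le_mul_of_nonneg_right h1 (by positivity)
        _ = (f * k) ^ 100 := (mul_pow _ _ _).symm
        _ = 1 := by rw [hkf, mul_one_div_cancel hf0.ne', one_pow]
    have h3 : (A.card : ℝ) / K ^ 100 * k ^ 100 = ((1 / K) ^ 100 * ((A.card : ℝ) / B.card) * k ^ 100) * B.card := by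
      field_simp
    rw [h3]
    calc _ ≤ 1 * (B.card : ℝ) := mul_le_mul_of_nonneg_right h2 hn.le
      _ = _ := one_mul _
  -- two cases
  rcases le_or_gt (Real.log k) (Real.exp ((T - 16) / 2)) with hsmall | hlarge
  · -- the maximiser itself
    refine ⟨B, hBA, hB, ?_, ?_, ?_⟩
    · refine le_trans ?_ hsize
      exact le_mul_of_one_le_right (by positivity) (one_le_pow₀ hk1)
    · refine (Pool.Agent.BSGX2.Core.core hB hext hkd hk1).trans (mul_le_mul_of_nonneg_right ?_ hn.le)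
      have hexp : max 100 (16 + 2 * Real.log (Real.log k)) ≤ T := by
        apply max_le hT
        rcases hk1.eq_or_lt with h | h
        · rw [← h]
          simp only [Real.log_one, Real.log_zero, mul_zero, add_zero]
          linarith
        · have h1 : 0 < Real.log k := Real.log_pos h
          have h3 := Real.log_le_log h1 hsmall
          rw [Real.log_exp] at h3
          linarith
      calc k ^ (max 100 (16 + 2 * Real.log (Real.log k))) ≤ k ^ T :=
            Real.rpow_le_rpow_of_exponent_le hk1 hexp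
        _ ≤ K ^ T := Real.rpow_le_rpow (by linarith) hkK (by linarith)
    · intro X hX hXne
      have h1 := third hXne hB (hmax X hX)
      have h2 : K ^ (-η) ≤ 1 := Real.rpow_le_one_of_one_le_of_nonpos hK (by linarith)
      refine le_trans ?_ h1
      exact mul_le_of_le_one_left (by positivity) h2
  · -- a subset of the maximiser
    obtain ⟨l, hl⟩ : ∃ l, l = Real.log k := ⟨_, rfl⟩
    rw [← hl] at hlarge
    have hl0 : 0 < l := lt_trans (Real.exp_pos _) hlarge
    have hkl : k = Real.exp l := by rw [hl, Real.exp_log hk0]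
    have hEl : (energy B : ℝ) = Real.exp (-l) * (B.card : ℝ) ^ 3 := by
      rw [Real.exp_neg, ← hkl, hkd, inv_div, div_mul_cancel₀ _ (pow_pos hn 3).ne']
    obtain ⟨s, hs1, hs2, hs3⟩ := numbers hT hlarge
    -- degrees
    have hlb : l ≤ B.card := by
      have h1 : (B.card : ℝ) ≤ energy B := by
        have h2 : ∑ x ∈ B, 1 ≤ ∑ x ∈ B, deg B x := by
          apply Finset.sum_le_sum
          intro x hx
          unfold deg
          have h3 : (if x + x = x + x then 1 else 0) ≤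
              ∑ b ∈ B, ∑ c ∈ B, ∑ d ∈ B, if x + b = c + d then 1 else 0 := by
            refine le_trans ?_ (Finset.single_le_sum (f := fun b => ∑ c ∈ B, ∑ d ∈ B, if x + b = c + d then 1 else 0)
              (fun _ _ => Nat.zero_le _) hx)
            refine le_trans ?_ (Finset.single_le_sum (f := fun c => ∑ d ∈ B, if x + x = c + d then 1 else 0)
              (fun _ _ => Nat.zero_le _) hx)
            exact Finset.single_le_sum (f := fun d => if x + x = x + d then 1 else 0)
              (fun _ _ => Nat.zero_le _) hx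
          simpa using h3
        rw [← energy_eq_sum_deg] at h2
        have h4 : B.card ≤ energy B := by simpa using h2
        exact_mod_cast h4
      have h2 : k ≤ (B.card : ℝ) ^ 2 := by
        rw [hkd, div_le_iff₀ hEB]
        nlinarith [pow_pos hn 2]
      have h3 : l ≤ 2 * Real.log B.card := by
        have h4 := Real.log_le_log hk0 h2
        rw [Real.log_pow] at h4
        rw [hl]
        exact_mod_cast h4
      have h5 : Real.log B.card ≤ (B.card : ℝ) / 2 := by
        have h6 := Real.log_le_sub_one_of_pos (div_pos hn (two_pos : (0:ℝ) < 2))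
        rw [Real.log_div hn.ne' (by norm_num)] at h6
        have h7 := Real.log_two_lt_d9
        linarith
      linarith
    have hB3 : (2000 : ℝ) ≤ B.card := by
      refine le_trans ?_ hlb
      refine le_trans ?_ hlarge.le
      refine le_trans ?_ (Real.exp_le_exp.2 (show (42:ℝ) ≤ (T - 16) / 2 by linarith))
      have e : (42:ℝ) = ((42:ℕ):ℝ) * 1 := by norm_num
      rw [e, Real.exp_nat_mul]
      calc (2000:ℝ) ≤ 2 ^ 42 := by norm_num
        _ ≤ Real.exp 1 ^ 42 := pow_le_pow_left₀ (by norm_num) (by linarith [Real.add_one_le_exp (1:ℝ)]) 42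
    have hdeg : ∀ z ∈ B, 747 / 1000 * ((energy B : ℝ) / B.card) ≤ deg B z := by
      intro z hz
      refine le_trans ?_ (deg_lower hext hz)
      apply mul_le_mul_of_nonneg_right _ (div_nonneg hEB.le hn.le)
      have h1 : 1 / (B.card : ℝ) ≤ 1 / 2000 := one_div_le_one_div_of_le (by norm_num) hB3
      linarith
    obtain ⟨X, hXB, hXne, hXc, hXX⟩ := subset_of_extremal hB hext hl0.le hEl hdeg s
    have hX0 : (0:ℝ) < X.card := by exact_mod_cast hXne.card_pos
    obtain ⟨μ, hμ⟩ : ∃ μ : ℝ, μ = (X.card : ℝ) / B.card := ⟨_, rfl⟩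
    have hμ0 : 0 < μ := by rw [hμ]; exact div_pos hX0 hn
    have hμ1 : μ ≤ 1 := by
      rw [hμ, div_le_one hn]; exact_mod_cast Finset.card_le_card hXB
    have hμl : Real.exp (-(3 + (101 / 299 : ℝ) ^ s * l)) ≤ μ := by
      rw [hμ, le_div_iff₀ hn]; exact hXc
    have hthl : (101 / 299 : ℝ) ^ s * l ≤ l := mul_le_of_le_one_left hl0.le hs2
    have hl42 : 42 ≤ l := by
      refine le_trans ?_ hlarge.le
      have := Real.add_one_le_exp ((T - 16) / 2)
      linarith
    refine ⟨X, hXB.trans hBA, hXne, ?_, ?_, ?_⟩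
    · -- size
      have h1 : Real.exp (-(3 + (101 / 299 : ℝ) ^ s * l)) * k ^ 100 = Real.exp (100 * l - (3 + (101 / 299 : ℝ) ^ s * l)) := by
        rw [hkl, ← Real.exp_nat_mul, ← Real.exp_add]
        congr 1; push_cast; ring
      have h2 : 1 ≤ Real.exp (-(3 + (101 / 299 : ℝ) ^ s * l)) * k ^ 100 := by
        rw [h1]
        apply Real.one_le_exp
        linarith
      have hAK : 0 ≤ (A.card : ℝ) / K ^ 100 := div_nonneg ha.le (pow_nonneg hK0.le 100)
      calc (A.card : ℝ) / K ^ 100 ≤ (A.card : ℝ) / K ^ 100 * (Real.exp (-(3 + (101 / 299 : ℝ) ^ s * l)) * k ^ 100) :=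
            le_mul_of_one_le_right hAK h2
        _ = Real.exp (-(3 + (101 / 299 : ℝ) ^ s * l)) * ((A.card : ℝ) / K ^ 100 * k ^ 100) := by ring
        _ ≤ Real.exp (-(3 + (101 / 299 : ℝ) ^ s * l)) * B.card :=
            mul_le_mul_of_nonneg_left hsize (Real.exp_pos _).le
        _ ≤ _ := hXc
    · -- sumset
      refine hXX.trans (mul_le_mul_of_nonneg_right ?_ hX0.le)
      calc _ ≤ Real.exp (T * l) := Real.exp_le_exp.2 hs1
        _ = k ^ T := by rw [Real.rpow_def_of_pos hk0, ← hl, mul_comm]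
        _ ≤ K ^ T := Real.rpow_le_rpow hk0.le hkK (by linarith)
    · intro Y hY hYne
      have hY0 : (0:ℝ) < Y.card := by exact_mod_cast hYne.card_pos
      have h1 := third hYne hB (hmax Y hY)
      rw [← hf] at h1
      -- compare `|Y| / |X|` with `|Y| / |B|`
      have h2 : ((Y.card : ℝ) / (X.card : ℝ)) ^ (1 / 100 : ℝ) =
          ((Y.card : ℝ) / (B.card : ℝ)) ^ (1 / 100 : ℝ) * (μ⁻¹) ^ (1 / 100 : ℝ) := by
        rw [← Real.mul_rpow (div_nonneg hY0.le hn.le) (inv_nonneg.mpr hμ0.le)]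
        congr 1
        rw [hμ, inv_div, div_mul_div_comm, mul_comm (B.card : ℝ) (X.card : ℝ), mul_div_mul_right _ _ hn.ne']
      have h3 : (747 / 1000 : ℝ) ^ 4 * μ * f ≤ (energy X : ℝ) / (X.card : ℝ) ^ 3 := by
        have h4 := energy_sub hB hXB (c := 747 / 1000) (by norm_num) hdeg
        rw [← hμ] at h4
        rw [le_div_iff₀ (pow_pos hX0 3)]
        refine le_trans (le_of_eq ?_) h4
        have h5 : (X.card : ℝ) = μ * B.card := by rw [hμ, div_mul_cancel₀ _ hn.ne']
        rw [h5, hf, mul_pow μ]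
        have h6 : ((B.card : ℝ) ^ 3)⁻¹ * (B.card : ℝ) ^ 3 = 1 := inv_mul_cancel₀ (pow_pos hn 3).ne'
        calc _ = (747 / 1000 : ℝ) ^ 4 * μ ^ 4 * (energy B : ℝ) * (((B.card : ℝ) ^ 3)⁻¹ * (B.card : ℝ) ^ 3) := by
              rw [div_eq_mul_inv (energy B : ℝ)]; ring
          _ = _ := by rw [h6, mul_one]
      -- the power of `μ`
      have h4 : (μ⁻¹) ^ (1 / 100 : ℝ) ≤ Real.exp ((3 + (101 / 299 : ℝ) ^ s * l) / 100) := by
        have h5 : μ⁻¹ ≤ Real.exp (3 + (101 / 299 : ℝ) ^ s * l) := by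
          rw [inv_le_comm₀ hμ0 (Real.exp_pos _), ← Real.exp_neg]; exact hμl
        calc (μ⁻¹) ^ (1 / 100 : ℝ) ≤ (Real.exp (3 + (101 / 299 : ℝ) ^ s * l)) ^ (1 / 100 : ℝ) :=
              Real.rpow_le_rpow (inv_nonneg.mpr hμ0.le) h5 (by norm_num)
          _ = _ := by rw [← Real.exp_mul]; congr 1; ring
      have h5 : K ^ (-η) ≤ Real.exp (-(η * l)) := by
        rw [Real.rpow_neg hK0.le, Real.exp_neg]
        apply inv_anti₀ (Real.exp_pos _)
        calc Real.exp (η * l) = k ^ η := by rw [Real.rpow_def_of_pos hk0, ← hl, mul_comm]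
          _ ≤ K ^ η := Real.rpow_le_rpow hk0.le hkK hη0.le
      have h6 : K ^ (-η) * (μ⁻¹) ^ (1 / 100 : ℝ) ≤ (747 / 1000 : ℝ) ^ 4 * μ := by
        have h7 : Real.exp (-2) ≤ (747 / 1000 : ℝ) ^ 4 := by
          refine le_trans (Real.exp_le_exp.2 (show (-2:ℝ) ≤ 2 * (-(99 / 100)) by norm_num)) ?_
          have e : Real.exp (2 * (-(99 / 100))) = Real.exp (-(99 / 100)) ^ 2 := by
            rw [← Real.exp_nat_mul]; norm_num
          rw [e]
          calc Real.exp (-(99 / 100)) ^ 2 ≤ (3735 / 10000) ^ 2 :=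
                pow_le_pow_left₀ (Real.exp_pos _).le exp_099 2
            _ ≤ _ := by norm_num
        calc K ^ (-η) * (μ⁻¹) ^ (1 / 100 : ℝ) ≤ Real.exp (-(η * l)) * Real.exp ((3 + (101 / 299 : ℝ) ^ s * l) / 100) :=
              mul_le_mul h5 h4 (Real.rpow_nonneg (inv_nonneg.mpr hμ0.le) _) (Real.exp_pos _).le
          _ = Real.exp (-(η * l) + (3 + (101 / 299 : ℝ) ^ s * l) / 100) := (Real.exp_add _ _).symm
          _ ≤ Real.exp (-2 + -(3 + (101 / 299 : ℝ) ^ s * l)) := by
              apply Real.exp_le_exp.2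
              rw [← hη] at hs3
              linarith
          _ = Real.exp (-2) * Real.exp (-(3 + (101 / 299 : ℝ) ^ s * l)) := Real.exp_add _ _
          _ ≤ _ := mul_le_mul h7 hμl (Real.exp_pos _).le (by positivity)
      have hnn : 0 ≤ K ^ (-η) * (μ⁻¹) ^ (1 / 100 : ℝ) :=
        mul_nonneg (Real.rpow_nonneg hK0.le _) (Real.rpow_nonneg (inv_nonneg.mpr hμ0.le) _)
      calc K ^ (-η) * ((energy Y : ℝ) / (Y.card : ℝ) ^ 3 * ((Y.card : ℝ) / (X.card : ℝ)) ^ (1 / 100 : ℝ))
          = (K ^ (-η) * (μ⁻¹) ^ (1 / 100 : ℝ)) *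
            ((energy Y : ℝ) / (Y.card : ℝ) ^ 3 * ((Y.card : ℝ) / (B.card : ℝ)) ^ (1 / 100 : ℝ)) := by
            rw [h2]; ring
        _ ≤ (K ^ (-η) * (μ⁻¹) ^ (1 / 100 : ℝ)) * f := mul_le_mul_of_nonneg_left h1 hnn
        _ ≤ ((747 / 1000 : ℝ) ^ 4 * μ) * f := mul_le_mul_of_nonneg_right h6 hf0.le
        _ ≤ _ := h3

end Pool.Agent.Results.MP_be00de_co.EnergyLoss
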