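import Mathlib
import Pool.Agent.BSGX2.Final
import Pool.Agent.BSGX2.CoreCopy

/-!
# Balog–Szemerédi–Gowers with preserved normalised energy: both questions, exactly as posed,
for every abelian group of exponent two
-/

namespace Pool.Agent.Results.MP_be00de_co.ExponentTwo

open Finset Pool.Agent.BSGEnergy

lemma exp_exp_large {k : ℝ} (hk : Real.exp (Real.exp 42) < k) :
    300 ≤ Real.log k ∧ (10:ℝ) ^ 15 ≤ k := by
  have h1 : (300:ℝ) ≤ Real.exp 42 := by
    have e : (42:ℝ) = ((42:ℕ):ℝ) * 1 := by norm_num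
    rw [e, Real.exp_nat_mul]
    calc (300:ℝ) ≤ 2 ^ 42 := by norm_num
      _ ≤ Real.exp 1 ^ 42 := pow_le_pow_left₀ (by norm_num) (by linarith [Real.add_one_le_exp (1:ℝ)]) 42
  have h2 : (10:ℝ) ^ 15 ≤ Real.exp (Real.exp 42) := by
    calc (10:ℝ) ^ 15 ≤ 2 ^ 50 := by norm_num
      _ ≤ Real.exp 1 ^ 50 := pow_le_pow_left₀ (by norm_num) (by linarith [Real.add_one_le_exp (1:ℝ)]) 50
      _ = Real.exp (((50:ℕ):ℝ) * 1) := by rw [Real.exp_nat_mul]
      _ ≤ Real.exp (Real.exp 42) := Real.exp_le_exp.mpr (by norm_num; linarith)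
  have hk0 : 0 < k := (Real.exp_pos _).trans hk
  refine ⟨?_, h2.trans hk.le⟩
  rw [Real.le_log_iff_exp_le hk0]
  exact (Real.exp_le_exp.mpr h1).trans hk.le

open Pointwise in
/-- The sumset bound for extremal sets in exponent two. -/
lemma sumset_le {G : Type*} [AddCommGroup G] [DecidableEq G] (hG : ∀ x : G, x + x = 0)
    {B : Finset G} (hB : B.Nonempty) (hext : Extremal B) {k : ℝ}
    (hkd : k = (B.card : ℝ) ^ 3 / energy B) (hk1 : 1 ≤ k) :
    ((B + B).card : ℝ) ≤ k ^ 100 * B.card := by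
  have hn : (0:ℝ) < B.card := by exact_mod_cast hB.card_pos
  by_cases hk : k ≤ Real.exp (Real.exp 42)
  · have hcore := Pool.Agent.BSGX2.Core.core hB hext hkd hk1
    have hmax : max 100 (16 + 2 * Real.log (Real.log k)) = (100:ℝ) := by
      apply max_eq_left
      have h1 : Real.log k ≤ Real.exp 42 := by
        have := Real.log_le_log (by linarith) hk
        rwa [Real.log_exp] at this
      have h2 : Real.log (Real.log k) ≤ 42 := by
        rcases (Real.log_nonneg hk1).eq_or_lt with h | h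
        · rw [← h, Real.log_zero]; norm_num
        · have := Real.log_le_log h h1
          rwa [Real.log_exp] at this
      linarith
    rw [hmax] at hcore
    have e : k ^ (100:ℝ) = k ^ 100 := by
      rw [← Real.rpow_natCast]; norm_num
    rwa [e] at hcore
  · push Not at hk
    obtain ⟨h1, h2⟩ := exp_exp_large hk
    have hE1 : (1:ℝ) ≤ energy B := by exact_mod_cast energy_pos hB
    have h3 : k ≤ (B.card : ℝ) ^ 3 := by
      rw [hkd]
      exact div_le_self (by positivity) hE1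
    have hN : (10:ℝ) ^ 5 ≤ B.card := by
      apply le_of_pow_le_pow_left₀ (show 3 ≠ 0 by norm_num) hn.le
      calc ((10:ℝ) ^ 5) ^ 3 = 10 ^ 15 := by norm_num
        _ ≤ k := h2
        _ ≤ _ := h3
    exact Pool.Agent.BSGX2.core_exp2 hG hB hext hN hkd h1

open Pointwise in
/-- **Main result.** Both questions, with the exponents as posed, for all abelian groups of
exponent two. -/
theorem result {G : Type*} [AddCommGroup G] [DecidableEq G] (hG : ∀ x : G, x + x = 0)
    (A : Finset G) (hA : A.Nonempty)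
    (K : ℝ) (hK : 1 ≤ K) (hE : (A.card : ℝ) ^ 3 / K ≤ (energy A : ℝ)) :
    ∃ A' : Finset G, A' ⊆ A ∧ A'.Nonempty ∧
      (A.card : ℝ) / K ^ 100 ≤ (A'.card : ℝ) ∧
      ((A' + A').card : ℝ) ≤ K ^ 100 * (A'.card : ℝ) ∧
      (energy A : ℝ) / (A.card : ℝ) ^ 3 * ((A.card : ℝ) / (A'.card : ℝ)) ^ (1 / 100 : ℝ) ≤
        (energy A' : ℝ) / (A'.card : ℝ) ^ 3 := by
  obtain ⟨B, hBA, hB, hext, hcmp⟩ := exists_extremal hA
  have hn : (0:ℝ) < B.card := by exact_mod_cast hB.card_pos
  have ha : (0:ℝ) < A.card := by exact_mod_cast hA.card_pos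
  have hEB : (0:ℝ) < energy B := by exact_mod_cast energy_pos hB
  have hEA : (0:ℝ) < energy A := by exact_mod_cast energy_pos hA
  have hK0 : 0 < K := by linarith
  have hcmp' : (energy A : ℝ) ^ 100 * (B.card : ℝ) ^ 299 ≤ (energy B : ℝ) ^ 100 * (A.card : ℝ) ^ 299 := by
    exact_mod_cast hcmp
  obtain ⟨e, he⟩ : ∃ e, e = (energy A : ℝ) / (A.card : ℝ) ^ 3 := ⟨_, rfl⟩
  obtain ⟨f, hf⟩ : ∃ f, f = (energy B : ℝ) / (B.card : ℝ) ^ 3 := ⟨_, rfl⟩
  have he0 : 0 < e := by rw [he]; positivity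
  have hf0 : 0 < f := by rw [hf]; positivity
  -- the inequality between the hundredth powers
  have hpow : e ^ 100 * ((A.card : ℝ) / B.card) ≤ f ^ 100 := by
    rw [he, hf, div_pow, div_pow, ← pow_mul, ← pow_mul, div_mul_div_comm,
      div_le_div_iff₀ (by positivity) (by positivity)]
    have e1 : (B.card : ℝ) ^ (3 * 100) = (B.card : ℝ) ^ 299 * B.card := by rw [← pow_succ]
    have e2 : (A.card : ℝ) ^ (3 * 100) = (A.card : ℝ) ^ 299 * A.card := by rw [← pow_succ]
    rw [e1, e2]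
    calc _ = ((energy A : ℝ) ^ 100 * (B.card : ℝ) ^ 299) * (A.card * B.card) := by ring
      _ ≤ ((energy B : ℝ) ^ 100 * (A.card : ℝ) ^ 299) * (A.card * B.card) :=
          mul_le_mul_of_nonneg_right hcmp' (by positivity)
      _ = _ := by ring
  have hthird : e * ((A.card : ℝ) / (B.card : ℝ)) ^ (1 / 100 : ℝ) ≤ f := by
    have h0 : (0:ℝ) ≤ (A.card : ℝ) / B.card := by positivity
    apply le_of_pow_le_pow_left₀ (show 100 ≠ 0 by norm_num) hf0.le
    rw [mul_pow, ← Real.rpow_natCast (((A.card : ℝ) / (B.card : ℝ)) ^ (1 / 100 : ℝ)),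
      ← Real.rpow_mul h0]
    norm_num
    exact hpow
  have heK : 1 / K ≤ e := by
    rw [he, div_le_div_iff₀ hK0 (by positivity)]
    rw [div_le_iff₀ hK0] at hE
    linarith
  have hf1 : f ≤ 1 := by
    rw [hf, div_le_one (by positivity)]
    exact_mod_cast energy_le B
  have hsize : (A.card : ℝ) / K ^ 100 ≤ B.card := by
    have h1 : (1 / K) ^ 100 * ((A.card : ℝ) / B.card) ≤ 1 := by
      calc (1 / K) ^ 100 * ((A.card : ℝ) / B.card) ≤ e ^ 100 * ((A.card : ℝ) / B.card) :=
            mul_le_mul_of_nonneg_right (pow_le_pow_left₀ (by positivity) heK 100) (by positivity)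
        _ ≤ f ^ 100 := hpow
        _ ≤ 1 := pow_le_one₀ hf0.le hf1
    rw [div_le_iff₀ (by positivity)]
    rw [one_div, inv_pow, inv_mul_le_iff₀ (by positivity), mul_one, div_le_iff₀ hn] at h1
    linarith
  have hcardle : (B.card : ℝ) ≤ A.card := by exact_mod_cast Finset.card_le_card hBA
  have hef : e ≤ f := by
    have h1 : (1:ℝ) ≤ ((A.card : ℝ) / (B.card : ℝ)) ^ (1 / 100 : ℝ) := by
      apply Real.one_le_rpow _ (by norm_num)
      rwa [one_le_div hn]
    calc e ≤ e * ((A.card : ℝ) / (B.card : ℝ)) ^ (1 / 100 : ℝ) := le_mul_of_one_le_right he0.le h1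
      _ ≤ f := hthird
  obtain ⟨k, hkd⟩ : ∃ k, k = (B.card : ℝ) ^ 3 / energy B := ⟨_, rfl⟩
  have hkf : k = 1 / f := by rw [hkd, hf, one_div_div]
  have hk1 : 1 ≤ k := by
    rw [hkf, le_div_iff₀ hf0]; linarith
  have hkK : k ≤ K := by
    rw [hkf, div_le_iff₀ hf0]
    have := heK.trans hef
    rw [div_le_iff₀ hK0] at this
    linarith
  have hcore := sumset_le hG hB hext hkd hk1
  refine ⟨B, hBA, hB, hsize, ?_, ?_⟩
  · refine hcore.trans (mul_le_mul_of_nonneg_right ?_ hn.le)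
    exact pow_le_pow_left₀ (by linarith) hkK 100
  · rw [← he, ← hf]
    exact hthird

end Pool.Agent.Results.MP_be00de_co.ExponentTwo
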